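import Pool.Agent.helper32.EB.Defs2
import Pool.Agent.helper6.BT.VA
import Pool.Agent.helper97.BT.VB

/-!
# Project EB (MP_b57423_pr), module VC: one step of all regions
-/

set_option autoImplicit false

open MeasureTheory ProbabilityTheory Filter Topology
open scoped ENNReal NNReal

namespace Pool.Agent.helper32.EB

theorem VC_rpos (G : Geo) (hG : G.OK) : 0 < G.r := by
  have h1 : ∀ k ≤ G.K, 0 < G.R (G.K - k) := by
    intro k
    induction k with
    | zero =>
      intro _
      rw [Nat.sub_zero, hG.RK]
      linarith [hG.hpos, hG.hρ]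
    | succ k ih =>
      intro hk
      have h2 := ih (by omega)
      have h3 := hG.dec (G.K - (k + 1)) (by omega)
      have h4 : G.K - (k + 1) + 1 = G.K - k := by omega
      rw [h4] at h3
      linarith
  have h2 := h1 G.K le_rfl
  rw [Nat.sub_self, hG.R0] at h2
  linarith

theorem valQ_step (G : Geo) (hG : G.OK) {M : ℕ} (o : Fin M → ℂ) (s : ℂ × (Fin M → RS G.J))
    (hs : ∀ i, ValQ G (s.1 - o i) (s.2 i)) (y : ℂ) (hy : ‖y‖ < G.h) :
    ∀ i, ValQ G ((gstep G o s y).1 - o i) ((gstep G o s y).2 i) := by
  intro i
  have hr := VC_rpos G hG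
  have hR : G.r < G.R' := by linarith [hG.big]
  show ValQ G (s.1 + y - o i) (rstep G (disp (s.1 + y - o i)) (s.2 i))
  generalize s.2 i = q
  set w := disp (s.1 + y - o i) with hw
  rcases q with _ | ⟨b, m, U⟩
  · exact trivial
  · cases b with
    | false =>
      cases m with
      | zero =>
        by_cases h : ‖w‖ ≤ G.r
        · have h1 : rstep G w (some (false, 0, U)) = none := if_pos h
          rw [h1]
          exact trivial
        · have h1 : rstep G w (some (false, 0, U)) = some (false, 0, U) := if_neg h
          rw [h1]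
          exact not_le.1 h
      | succ m =>
        by_cases h : ‖w‖ ≤ G.r
        · have h1 : rstep G w (some (false, m + 1, U)) = some (true, m, upd G w U) := if_pos h
          rw [h1]
          exact h.trans_lt hR
        · have h1 : rstep G w (some (false, m + 1, U)) = some (false, m + 1, U) := if_neg h
          rw [h1]
          exact not_le.1 h
    | true =>
      by_cases h : ‖w‖ < G.R'
      · have h1 : rstep G w (some (true, m, U)) = some (true, m, upd G w U) := if_pos h
        rw [h1]
        exact h
      · have h1 : rstep G w (some (true, m, U)) = some (false, m, upd G w U) := if_neg h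
        rw [h1]
        exact hR.trans_le (not_lt.1 h)

/-- the value of a region which is not active does not increase -/
theorem VC_idle (G : Geo) (ν : Measure ℂ) (z y : ℂ) (hy : ‖y‖ < G.h) (q : RS G.J)
    (hq : ∀ m U, q ≠ some (true, m, U)) (hs : ValQ G z q) :
    phiR G ν (disp (z + y)) (rstep G (disp (z + y)) q) ≤ phiR G ν (disp z) q := by
  rcases q with _ | ⟨b, m, U⟩
  · exact le_refl _
  · cases b with
    | true => exact absurd rfl (hq m U)
    | false =>
      have hz : G.r < ‖disp z‖ := hs
      cases m with
      | zero =>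
        by_cases h : ‖disp (z + y)‖ ≤ G.r
        · have h1 : rstep G (disp (z + y)) (some (false, 0, U)) = none := if_pos h
          rw [h1]
          exact zero_le
        · have h1 : rstep G (disp (z + y)) (some (false, 0, U)) = some (false, 0, U) := if_neg h
          rw [h1]
          exact le_refl _
      | succ m =>
        by_cases h : ‖disp (z + y)‖ ≤ G.r
        · have h1 : rstep G (disp (z + y)) (some (false, m + 1, U)) =
              some (true, m, upd G (disp (z + y)) U) := if_pos h
          rw [h1]
          have h2 : ‖disp z‖ ≤ ‖disp (z + y)‖ + ‖y‖ := by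
            have h3 := disp_norm_add (z + y) (-y)
            rwa [add_neg_cancel_right, norm_neg] at h3
          show Fv G ν (Vv G ν m) (disp (z + y)) (upd G (disp (z + y)) U) ≤ Vv G ν (m + 1) U
          exact le_iSup₂ (f := fun (z : ℂ) (_ : G.r - G.h ≤ ‖z‖ ∧ ‖z‖ ≤ G.r) =>
            Fv G ν (Vv G ν m) z (upd G z U)) (disp (z + y)) ⟨by linarith, h⟩
        · have h1 : rstep G (disp (z + y)) (some (false, m + 1, U)) = some (false, m + 1, U) :=
            if_neg h
          rw [h1]
          exact le_refl _

theorem phi_step (G : Geo) (hG : G.OK) {ν : Measure ℂ} (hν : RotStep ν G.h) {M : ℕ}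
    (o : Fin M → ℂ) (ho : Sep G o) (s : ℂ × (Fin M → RS G.J))
    (hs : ∀ i, ValQ G (s.1 - o i) (s.2 i)) :
    ∫⁻ y, ∏ i, phiR G ν (disp ((gstep G o s y).1 - o i)) ((gstep G o s y).2 i) ∂ν ≤
      ∏ i, phiR G ν (disp (s.1 - o i)) (s.2 i) := by
  have hprob := hν.prob
  have hr := VC_rpos G hG
  have hR : G.r < G.R' := by linarith [hG.big]
  set F : Fin M → ℂ → ℝ≥0∞ := fun i y =>
    phiR G ν (disp (s.1 - o i + y)) (rstep G (disp (s.1 - o i + y)) (s.2 i)) with hF
  have hFy : ∀ y, ∏ i, phiR G ν (disp ((gstep G o s y).1 - o i)) ((gstep G o s y).2 i) =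
      ∏ i, F i y := by
    intro y
    refine Finset.prod_congr rfl fun i _ => ?_
    have h1 : s.1 + y - o i = s.1 - o i + y := by ring
    show phiR G ν (disp (s.1 + y - o i)) (rstep G (disp (s.1 + y - o i)) (s.2 i)) = F i y
    rw [h1]
  simp only [hFy]
  by_cases hact : ∃ i m U, s.2 i = some (true, m, U)
  · obtain ⟨i, m, U, hi⟩ := hact
    have hwi : ‖disp (s.1 - o i)‖ < G.R' := by
      have := hs i
      rw [hi] at this
      exact this
    have hh := hG.hpos
    have hwj : ∀ j, j ≠ i → G.R' + G.h ≤ ‖disp (s.1 - o j)‖ := by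
      intro j hj
      by_contra hn
      exact ho j i hj s.1 ⟨not_le.1 hn, by linarith⟩
    have hFj : ∀ j, j ≠ i → ∀ y : ℂ, ‖y‖ < G.h → F j y = phiR G ν (disp (s.1 - o j)) (s.2 j) := by
      intro j hj y hy
      have h1 := hwj j hj
      have h2 : ‖disp (s.1 - o j)‖ ≤ ‖disp (s.1 - o j + y)‖ + ‖y‖ := by
        have h3 := disp_norm_add (s.1 - o j + y) (-y)
        rwa [add_neg_cancel_right, norm_neg] at h3
      have h4 : ¬ ‖disp (s.1 - o j + y)‖ ≤ G.r := by
        intro h5
        linarith
      show phiR G ν (disp (s.1 - o j + y)) (rstep G (disp (s.1 - o j + y)) (s.2 j)) = _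
      have h5 := hs j
      generalize s.2 j = q at h5
      rcases q with _ | ⟨b, m, U⟩
      · rfl
      · cases b with
        | true =>
          exfalso
          have h6 : ‖disp (s.1 - o j)‖ < G.R' := h5
          linarith
        | false =>
          cases m with
          | zero =>
            have h7 : rstep G (disp (s.1 - o j + y)) (some (false, 0, U)) = some (false, 0, U) :=
              if_neg h4
            rw [h7]
            rfl
          | succ m =>
            have h7 : rstep G (disp (s.1 - o j + y)) (some (false, m + 1, U)) =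
                some (false, m + 1, U) := if_neg h4
            rw [h7]
            rfl
    set H : ℂ → ℝ≥0∞ := fun y => Fv G ν (Vv G ν m) (disp (s.1 - o i) + y)
      (upd G (disp (s.1 - o i) + y) U) with hH
    have hFi : ∀ y : ℂ, ‖y‖ < G.h → F i y = H y := by
      intro y hy
      have h1 : disp (s.1 - o i + y) = disp (s.1 - o i) + y :=
        disp_add_small _ _ (by linarith [hG.small])
      show phiR G ν (disp (s.1 - o i + y)) (rstep G (disp (s.1 - o i + y)) (s.2 i)) = _
      rw [h1, hi]
      by_cases h : ‖disp (s.1 - o i) + y‖ < G.R'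
      · have h2 : rstep G (disp (s.1 - o i) + y) (some (true, m, U)) =
            some (true, m, upd G (disp (s.1 - o i) + y) U) := if_pos h
        rw [h2]
        rfl
      · have h2 : rstep G (disp (s.1 - o i) + y) (some (true, m, U)) =
            some (false, m, upd G (disp (s.1 - o i) + y) U) := if_neg h
        rw [h2]
        show Vv G ν m _ = _
        rw [hH]
        exact (Fv_out G ν _ _ _ (not_lt.1 h)).symm
    have hHm : Measurable H := by
      have h1 := upd_meas G (fun z U => Fv G ν (Vv G ν m) z U) (fun U => Fv_meas G ν _ U) U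
      exact h1.comp (measurable_const_add (disp (s.1 - o i)))
    have hae : ∀ᵐ y ∂ν, ∏ j, F j y =
        H y * ∏ j ∈ Finset.univ.erase i, phiR G ν (disp (s.1 - o j)) (s.2 j) := by
      filter_upwards [hν.bdd] with y hy
      rw [← Finset.mul_prod_erase Finset.univ (fun j => F j y) (Finset.mem_univ i), hFi y hy]
      congr 1
      exact Finset.prod_congr rfl fun j hj => hFj j (Finset.ne_of_mem_erase hj) y hy
    rw [lintegral_congr_ae hae, lintegral_mul_const _ hHm,
      ← Finset.mul_prod_erase Finset.univ (fun j => phiR G ν (disp (s.1 - o j)) (s.2 j))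
        (Finset.mem_univ i), hi]
    apply le_of_eq
    congr 1
    show ∫⁻ y, H y ∂ν = Fv G ν (Vv G ν m) (disp (s.1 - o i)) U
    rw [Fv_in G ν (Vv G ν m) (disp (s.1 - o i)) U hwi]
  · push Not at hact
    have hle : ∀ᵐ y ∂ν, ∏ i, F i y ≤ ∏ i, phiR G ν (disp (s.1 - o i)) (s.2 i) := by
      filter_upwards [hν.bdd] with y hy
      exact Finset.prod_le_prod' fun i _ => VC_idle G ν (s.1 - o i) y hy (s.2 i) (hact i) (hs i)
    refine (lintegral_mono_ae hle).trans ?_
    rw [lintegral_const, measure_univ, mul_one]

end Pool.Agent.helper32.EB
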